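import Mathlib
import Pool.Agent.V11130.Stable

/-!
# The independence number of (3,0)-stable graphs stays away from n/2

For every constant `c` there are only finitely many (3,0)-stable graphs `G` with
`α(G) ≥ |V(G)|/2 - c`.
-/

set_option autoImplicit false

namespace Pool.Agent.Results.MP_4d8c35_co.NoBoundedDefect

/-- `G` is `(k,l)`-stable: deleting any `k` vertices lowers the independence number by at most `l` -/
def IsStable (k l : ℕ) {V : Type} (G : SimpleGraph V) : Prop :=
  ∀ S : Finset V, S.card = k → G.indepNum ≤ (G.induce {v | v ∉ S}).indepNum + l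

/-- **Theorem.** For every real `c > 0` the number of vertices of a (3,0)-stable graph with
`α(G) ≥ |V(G)|/2 - c` is bounded. -/
theorem result : ∀ c : ℝ, 0 < c → ∃ N : ℕ, ∀ (n : ℕ) (G : SimpleGraph (Fin n)),
    IsStable 3 0 G → (n : ℝ) / 2 - c ≤ (G.indepNum : ℝ) → n ≤ N := by
  intro c _
  obtain ⟨N, hN⟩ := Pool.Agent.V11130.Stable.stable_bounded ⌈2 * c⌉₊
  refine ⟨N, ?_⟩
  intro n G hst hα
  have h := hN (Fin n) G G.indepNum (fun S hS =>
    Pool.Agent.V11130.Stable.exists_of_stable G S (by simpa using hst S hS))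
    (fun T hT => Pool.Agent.V11130.Stable.card_le_of_ind G T hT) (by
      rw [Fintype.card_fin]
      have h1 : 2 * c ≤ (⌈2 * c⌉₊ : ℝ) := Nat.le_ceil _
      have h2 : (n : ℝ) ≤ 2 * (G.indepNum : ℝ) + (⌈2 * c⌉₊ : ℝ) := by linarith
      exact_mod_cast h2)
  rwa [Fintype.card_fin] at h

end Pool.Agent.Results.MP_4d8c35_co.NoBoundedDefect
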